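import Pool.Agent.Helper79.KW.Base

/-!
# Topology of étale groupoids I (piece KW-TA1 of MP_715b63_an)
-/

open CategoryTheory Topology
open scoped ENNReal

namespace Pool.Agent.KW

universe u v

variable {X : Type u} [Groupoid.{u} X] [TopologicalSpace X] [TopologicalSpace (Arr X)]

namespace TA1

theorem continuous_src [EtaleGroupoid X] : Continuous (Arr.src : Arr X → X) :=
  EtaleGroupoid.src_homeo.continuous

theorem continuous_unitArr [EtaleGroupoid X] : Continuous (unitArr : X → Arr X) :=
  EtaleGroupoid.unit_cont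

omit [TopologicalSpace X] [TopologicalSpace (Arr X)] in
theorem leftInverse_src : Function.LeftInverse (Arr.src : Arr X → X) (unitArr : X → Arr X) :=
  fun _ => rfl

theorem exists_open_injOn_src [EtaleGroupoid X] (a : Arr X) :
    ∃ U : Set (Arr X), IsOpen U ∧ a ∈ U ∧ Set.InjOn Arr.src U := by
  obtain ⟨e, ha, he⟩ := EtaleGroupoid.src_homeo (X := X) a
  refine ⟨e.source, e.open_source, ha, ?_⟩
  rw [he]
  exact e.injOn

theorem exists_open_injOn_tgt [EtaleGroupoid X] (a : Arr X) :
    ∃ U : Set (Arr X), IsOpen U ∧ a ∈ U ∧ Set.InjOn Arr.tgt U := by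
  obtain ⟨e, ha, he⟩ := EtaleGroupoid.tgt_homeo (X := X) a
  refine ⟨e.source, e.open_source, ha, ?_⟩
  rw [he]
  exact e.injOn

omit [TopologicalSpace X] [TopologicalSpace (Arr X)] in
theorem arr_injective (x : X) : Function.Injective (arr : Fibre x → Arr X) := by
  rintro ⟨y, g⟩ ⟨z, h⟩ hgh
  simp only [arr, Arr.mk.injEq, true_and] at hgh
  obtain ⟨rfl, h2⟩ := hgh
  rw [eq_of_heq h2]

omit [TopologicalSpace X] [TopologicalSpace (Arr X)] in
theorem arr'_injective (y : X) :
    Function.Injective (fun g : Σ x, (x ⟶ y) => (⟨g.1, y, g.2⟩ : Arr X)) := by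
  rintro ⟨x, g⟩ ⟨z, h⟩ hgh
  simp only [Arr.mk.injEq, true_and] at hgh
  obtain ⟨rfl, h2⟩ := hgh
  rw [eq_of_heq h2]

end TA1

open TA1

theorem t2_unit [EtaleGroupoid X] : T2Space X := by
  have : T2Space (Arr X) := EtaleGroupoid.t2
  exact T2Space.of_injective_continuous (leftInverse_src (X := X)).injective continuous_unitArr

theorem TA1.isClosedEmbedding_unitArr [EtaleGroupoid X] :
    IsClosedEmbedding (unitArr : X → Arr X) := by
  have : T2Space (Arr X) := EtaleGroupoid.t2
  exact (leftInverse_src (X := X)).isClosedEmbedding continuous_src continuous_unitArr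

theorem lc_unit [EtaleGroupoid X] : LocallyCompactSpace X := by
  have : LocallyCompactSpace (Arr X) := EtaleGroupoid.locallyCompact
  exact (isClosedEmbedding_unitArr (X := X)).locallyCompactSpace

theorem isOpen_units [EtaleGroupoid X] : IsOpen (Set.range (unitArr : X → Arr X)) := by
  rw [isOpen_iff_forall_mem_open]
  rintro _ ⟨x, rfl⟩
  obtain ⟨U, hU, hxU, hinj⟩ := exists_open_injOn_src (unitArr x)
  refine ⟨U ∩ (fun g : Arr X => unitArr g.src) ⁻¹' U, ?_, ?_, ⟨hxU, hxU⟩⟩
  · rintro g ⟨hg, hg'⟩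
    exact ⟨g.src, hinj hg' hg rfl⟩
  · exact hU.inter (hU.preimage (continuous_unitArr.comp continuous_src))

theorem isClosed_units [EtaleGroupoid X] : IsClosed (Set.range (unitArr : X → Arr X)) :=
  (isClosedEmbedding_unitArr (X := X)).isClosed_range

/-- only finitely many arrows of `G_x` meet a compact set -/
theorem finite_fibre_of_compact [EtaleGroupoid X] (K : Set (Arr X)) (hK : IsCompact K) (x : X) :
    {g : Fibre x | arr g ∈ K}.Finite := by
  refine hK.induction_on (p := fun s => {g : Fibre x | arr g ∈ s}.Finite) ?_ ?_ ?_ ?_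
  · simp
  · intro s t hst ht
    exact ht.subset (fun g hg => hst hg)
  · intro s t hs ht
    exact (hs.union ht).subset (fun g hg => hg)
  · intro a _
    obtain ⟨U, hU, haU, hinj⟩ := exists_open_injOn_src a
    refine ⟨U, mem_nhdsWithin_of_mem_nhds (hU.mem_nhds haU), ?_⟩
    apply Set.Subsingleton.finite
    intro g hg g' hg'
    exact arr_injective x (hinj hg hg' rfl)

theorem finite_fibre_tgt_of_compact [EtaleGroupoid X] (K : Set (Arr X)) (hK : IsCompact K)
    (y : X) : {g : Σ x, (x ⟶ y) | (⟨g.1, y, g.2⟩ : Arr X) ∈ K}.Finite := by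
  refine hK.induction_on (p := fun s => {g : Σ x, (x ⟶ y) | (⟨g.1, y, g.2⟩ : Arr X) ∈ s}.Finite)
    ?_ ?_ ?_ ?_
  · simp
  · intro s t hst ht
    exact ht.subset (fun g hg => hst hg)
  · intro s t hs ht
    exact (hs.union ht).subset (fun g hg => hg)
  · intro a _
    obtain ⟨U, hU, haU, hinj⟩ := exists_open_injOn_tgt a
    refine ⟨U, mem_nhdsWithin_of_mem_nhds (hU.mem_nhds haU), ?_⟩
    apply Set.Subsingleton.finite
    intro g hg g' hg'
    exact arr'_injective y (hinj hg hg' rfl)

/-- for fixed `t`, only finitely many `s` have `s t⁻¹ ∈ K`, and vice versa -/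
theorem finite_quot_of_compact [EtaleGroupoid X] (K : Set (Arr X)) (hK : IsCompact K) {x : X}
    (t : Fibre x) : {s : Fibre x | quot s t ∈ K}.Finite ∧ {s : Fibre x | quot t s ∈ K}.Finite := by
  constructor
  · refine Set.Finite.of_injOn (f := fun s : Fibre x =>
      (⟨s.1, Groupoid.inv t.2 ≫ s.2⟩ : Fibre t.1)) (fun s hs => ?_) ?_
      (finite_fibre_of_compact K hK t.1)
    · exact hs
    · rintro ⟨a, g⟩ _ ⟨b, h⟩ _ hgh
      simp only [Sigma.mk.injEq] at hgh
      obtain ⟨rfl, h2⟩ := hgh
      have h3 := eq_of_heq h2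
      have h4 : g = h := by
        have h5 := congrArg (fun z => t.2 ≫ z) h3
        simpa [← Category.assoc, Groupoid.comp_inv] using h5
      rw [h4]
  · refine Set.Finite.of_injOn (f := fun s : Fibre x =>
      (⟨s.1, Groupoid.inv s.2 ≫ t.2⟩ : Σ x, (x ⟶ t.1))) (fun s hs => ?_) ?_
      (finite_fibre_tgt_of_compact K hK t.1)
    · exact hs
    · rintro ⟨a, g⟩ _ ⟨b, h⟩ _ hgh
      simp only [Sigma.mk.injEq] at hgh
      obtain ⟨rfl, h2⟩ := hgh
      have h3 := eq_of_heq h2
      have h4 : Groupoid.inv g = Groupoid.inv h := by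
        have h5 := congrArg (fun z => z ≫ Groupoid.inv t.2) h3
        simpa [Category.assoc, Groupoid.comp_inv] using h5
      have h6 : g = h := by
        have h7 : g ≫ Groupoid.inv g ≫ h = g ≫ Groupoid.inv h ≫ h := by rw [h4]
        simpa [← Category.assoc, Groupoid.comp_inv, Groupoid.inv_comp] using h7.symm
      rw [h6]

end Pool.Agent.KW
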